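import Mathlib

namespace Pool.Agent.Results.MP_2b20db_nt.Infinite

/-- `D*_n`: the set of differences `|a - b|` of complementary divisors `a b = n`. -/
def Dstar (n : ℕ) : Set ℕ :=
  {d | ∃ a ∈ n.divisors, ∃ b ∈ n.divisors, a * b = n ∧ d = ((a : ℤ) - (b : ℤ)).natAbs}

/-- `D⁺_n`: the set of sums of two nonzero elements of `D*_n`. -/
def Dplus (n : ℕ) : Set ℕ :=
  {s | ∃ x ∈ Dstar n, ∃ y ∈ Dstar n, x ≠ 0 ∧ y ≠ 0 ∧ s = x + y}

/-- The `Δ` property: `D*_n ∩ D⁺_n ≠ ∅`. -/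
def HasDelta (n : ℕ) : Prop := 1 ≤ n ∧ (Dstar n ∩ Dplus n).Nonempty

/-- `Δ`-primitive numbers. -/
def DeltaPrimitive (n : ℕ) : Prop :=
  HasDelta n ∧ ¬ ∃ α m : ℕ, 2 ≤ α ∧ 2 ≤ m ∧ n = α ^ 2 * m ∧ HasDelta m

lemma mem_Dstar {n a b d : ℕ} (hn : 1 ≤ n) (hab : a * b = n) (hd : a = b + d) : d ∈ Dstar n := by
  refine ⟨a, ?_, b, ?_, hab, ?_⟩
  · rw [Nat.mem_divisors]; exact ⟨⟨b, hab.symm⟩, by omega⟩
  · rw [Nat.mem_divisors]; exact ⟨⟨a, by rw [mul_comm]; exact hab.symm⟩, by omega⟩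
  · rw [hd]; push_cast; simp

/-- If `a₁ b₁ = a₂ b₂ = a₃ b₃ = n` and `a₃ - b₃ = (a₁ - b₁) + (a₂ - b₂)` with positive
differences then `n` has the `Δ` property. -/
lemma hasDelta_of {n a₁ b₁ a₂ b₂ a₃ b₃ : ℕ} (hn : 1 ≤ n) (h1 : a₁ * b₁ = n) (h2 : a₂ * b₂ = n)
    (h3 : a₃ * b₃ = n) (l1 : b₁ < a₁) (l2 : b₂ < a₂)
    (h : (a₃ : ℤ) - b₃ = ((a₁ : ℤ) - b₁) + ((a₂ : ℤ) - b₂)) : HasDelta n := by
  refine ⟨hn, (a₁ - b₁) + (a₂ - b₂), ?_, (a₁ - b₁), ?_, (a₂ - b₂), ?_, by omega, by omega, rfl⟩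
  · exact mem_Dstar hn h3 (by omega)
  · exact mem_Dstar hn h1 (by omega)
  · exact mem_Dstar hn h2 (by omega)

/-- `1` does not have the `Δ` property. -/
lemma not_hasDelta_one : ¬ HasDelta 1 := by
  rintro ⟨-, s, -, x, ⟨a, ha, b, hb, -, hx⟩, -, -, hx0, -, -⟩
  simp at ha hb
  subst ha hb
  simp at hx
  exact hx0 hx

/-- The polynomial family: for every `e ≥ 2` the square of the integer
`U₁(e) V₁(e) m(e) W(e) V₃(e)` has the `Δ` property. -/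
lemma family (U₁ V₁ m W V₃ : ℕ) (e : ℕ)
    (hU : (U₁ : ℤ) = 4*e^6 + 20*e^5 + 40*e^4 + 44*e^3 + 26*e^2 + 8*e + 1)
    (hV : (V₁ : ℤ) = 4*e^6 + 4*e^5 - 4*e^3 - 6*e^2 - 4*e - 1)
    (hm : (m : ℤ) = 2 * e + 1)
    (hW : (W : ℤ) = 4*e^6 + 12*e^5 + 20*e^4 + 20*e^3 + 14*e^2 + 6*e + 1)
    (hV3 : (V₃ : ℤ) = 4*e^6 + 12*e^5 + 4*e^4 - 12*e^3 - 14*e^2 - 6*e - 1)
    (he : 1 ≤ e) (hU0 : 0 < U₁) (hV0 : 0 < V₁) (hW0 : 0 < W) (hV30 : 0 < V₃)
    (hUV : V₁ < U₁) :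
    HasDelta ((U₁ * V₁ * (m * W) * V₃) ^ 2) := by
  have hm0 : 1 < m := by
    have : (1 : ℤ) < m := by rw [hm]; have : (1 : ℤ) ≤ e := by exact_mod_cast he
                             linarith
    exact_mod_cast this
  have hk : 1 ≤ (U₁ * V₁ * (m * W) * V₃) ^ 2 := by
    have : 0 < (U₁ * V₁ * (m * W) * V₃) := by positivity
    exact Nat.one_le_pow _ _ this
  refine hasDelta_of (a₁ := U₁ ^ 2 * (m * W) * V₃) (b₁ := V₁ ^ 2 * (m * W) * V₃)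
    (a₂ := U₁ * V₁ * V₃ * W * m ^ 2) (b₂ := U₁ * V₁ * V₃ * W)
    (a₃ := (m * W) ^ 2 * U₁ * V₁) (b₃ := V₃ ^ 2 * U₁ * V₁) hk (by ring) (by ring) (by ring)
    ?_ ?_ ?_
  · have h1 : V₁ ^ 2 < U₁ ^ 2 := Nat.pow_lt_pow_left hUV (by norm_num)
    have h2 : 0 < m * W := by positivity
    have h3 : V₁ ^ 2 * (m * W) < U₁ ^ 2 * (m * W) := Nat.mul_lt_mul_of_pos_right h1 h2
    exact Nat.mul_lt_mul_of_pos_right h3 hV30
  · have h1 : 1 < m ^ 2 := Nat.one_lt_pow (by norm_num) hm0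
    have h2 : 0 < U₁ * V₁ * V₃ * W := by positivity
    nlinarith
  · push_cast
    rw [hU, hV, hm, hW, hV3]
    ring

/-- For every `M ≥ 1` some square of an integer coprime to `M` has the `Δ` property. -/
lemma exists_coprime (M : ℕ) (hM : 1 ≤ M) : ∃ k : ℕ, Nat.Coprime k M ∧ HasDelta (k ^ 2) := by
  set e : ℕ := 2 * M with he
  have he2 : 2 ≤ e := by omega
  have he2' : (2 : ℤ) ≤ e := by exact_mod_cast he2
  obtain ⟨f, hf⟩ : ∃ f : ℤ, (e : ℤ) = 2 + f := ⟨e - 2, by ring⟩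
  have hf0 : 0 ≤ f := by linarith
  have pU : (0 : ℤ) < 4*(e:ℤ)^6 + 20*e^5 + 40*e^4 + 44*e^3 + 26*e^2 + 8*e + 1 := by positivity
  have pV : (0 : ℤ) < 4*(e:ℤ)^6 + 4*e^5 - 4*e^3 - 6*e^2 - 4*e - 1 := by
    rw [hf]
    have : 4*(2+f)^6 + 4*(2+f)^5 - 4*(2+f)^3 - 6*(2+f)^2 - 4*(2+f) - 1 =
      4*f^6+52*f^5+280*f^4+796*f^3+1250*f^2+1012*f+319 := by ring
    rw [this]; positivity
  have pW : (0 : ℤ) < 4*(e:ℤ)^6 + 12*e^5 + 20*e^4 + 20*e^3 + 14*e^2 + 6*e + 1 := by positivity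
  have pV3 : (0 : ℤ) < 4*(e:ℤ)^6 + 12*e^5 + 4*e^4 - 12*e^3 - 14*e^2 - 6*e - 1 := by
    rw [hf]
    have : 4*(2+f)^6 + 12*(2+f)^5 + 4*(2+f)^4 - 12*(2+f)^3 - 14*(2+f)^2 - 6*(2+f) - 1 =
      4*f^6+60*f^5+364*f^4+1140*f^3+1930*f^2+1650*f+539 := by ring
    rw [this]; positivity
  obtain ⟨U₁, hU⟩ := Int.eq_ofNat_of_zero_le pU.le
  obtain ⟨V₁, hV⟩ := Int.eq_ofNat_of_zero_le pV.le
  obtain ⟨W, hW⟩ := Int.eq_ofNat_of_zero_le pW.le
  obtain ⟨V₃, hV3⟩ := Int.eq_ofNat_of_zero_le pV3.le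
  have hUV : V₁ < U₁ := by
    have : (V₁ : ℤ) < U₁ := by
      rw [← hU, ← hV]
      have h1 : (0 : ℤ) < (e:ℤ) := by linarith
      have : (0:ℤ) < 16*(e:ℤ)^5 + 40*e^4+48*e^3+32*e^2+12*e+2 := by positivity
      linarith
    exact_mod_cast this
  have hU0 : 0 < U₁ := by rw [hU] at pU; exact_mod_cast pU
  have hV0 : 0 < V₁ := by rw [hV] at pV; exact_mod_cast pV
  have hW0 : 0 < W := by rw [hW] at pW; exact_mod_cast pW
  have hV30 : 0 < V₃ := by rw [hV3] at pV3; exact_mod_cast pV3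
  refine ⟨U₁ * V₁ * ((2 * e + 1) * W) * V₃, ?_, ?_⟩
  · -- coprimality with `M`: everything is `≡ ±1` modulo `e`
    have key : ∀ (x : ℕ) (c : ℤ), ((x : ℤ) = c * M + 1 ∨ (x : ℤ) = c * M - 1) →
        Nat.Coprime x M := by
      intro x c h
      rw [← Nat.isCoprime_iff_coprime]
      rcases h with h | h
      · exact ⟨1, -c, by rw [h]; ring⟩
      · exact ⟨-1, c, by rw [h]; ring⟩
    have heM : (e : ℤ) = 2 * M := by rw [he]; push_cast; ring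
    have c1 : Nat.Coprime U₁ M := by
      refine key U₁ (2*(4*(e:ℤ)^5 + 20*e^4 + 40*e^3 + 44*e^2 + 26*e + 8)) (Or.inl ?_)
      rw [show ((U₁ : ℕ) : ℤ) = _ from hU.symm]
      linear_combination (4*(e:ℤ)^5 + 20*e^4 + 40*e^3 + 44*e^2 + 26*e + 8) * heM
    have c2 : Nat.Coprime V₁ M := by
      refine key V₁ (2*(4*(e:ℤ)^5 + 4*e^4 - 4*e^2 - 6*e - 4)) (Or.inr ?_)
      rw [show ((V₁ : ℕ) : ℤ) = _ from hV.symm]
      linear_combination (4*(e:ℤ)^5 + 4*e^4 - 4*e^2 - 6*e - 4) * heM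
    have c3 : Nat.Coprime (2 * e + 1) M := by
      refine key (2 * e + 1) 4 (Or.inl ?_)
      push_cast
      linear_combination 2 * heM
    have c4 : Nat.Coprime W M := by
      refine key W (2*(4*(e:ℤ)^5 + 12*e^4 + 20*e^3 + 20*e^2 + 14*e + 6)) (Or.inl ?_)
      rw [show ((W : ℕ) : ℤ) = _ from hW.symm]
      linear_combination (4*(e:ℤ)^5 + 12*e^4 + 20*e^3 + 20*e^2 + 14*e + 6) * heM
    have c5 : Nat.Coprime V₃ M := by
      refine key V₃ (2*(4*(e:ℤ)^5 + 12*e^4 + 4*e^3 - 12*e^2 - 14*e - 6)) (Or.inr ?_)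
      rw [show ((V₃ : ℕ) : ℤ) = _ from hV3.symm]
      linear_combination (4*(e:ℤ)^5 + 12*e^4 + 4*e^3 - 12*e^2 - 14*e - 6) * heM
    exact Nat.Coprime.mul_left (Nat.Coprime.mul_left (Nat.Coprime.mul_left c1 c2)
      (Nat.Coprime.mul_left c3 c4)) c5
  · exact family U₁ V₁ (2 * e + 1) W V₃ e hU.symm hV.symm (by push_cast; ring) hW.symm hV3.symm
      (by omega) hU0 hV0 hW0 hV30 hUV

/-- For every `M ≥ 1` there is a `Δ`-primitive square `k²` with `k` coprime to `M`. -/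
lemma exists_primitive_coprime (M : ℕ) (hM : 1 ≤ M) :
    ∃ k : ℕ, Nat.Coprime k M ∧ DeltaPrimitive (k ^ 2) := by
  obtain ⟨k, hkM, hk⟩ := exists_coprime M hM
  have hk0 : k ≠ 0 := by
    rintro rfl
    have := hk.1
    simp at this
  -- take the smallest divisor `d` of `k` such that `d²` has the property
  have hex : ∃ d : ℕ, d ∣ k ∧ HasDelta (d ^ 2) := ⟨k, dvd_rfl, hk⟩
  classical
  obtain ⟨hd1, hd2⟩ := Nat.find_spec hex
  refine ⟨Nat.find hex, Nat.Coprime.coprime_dvd_left hd1 hkM, hd2, ?_⟩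
  rintro ⟨α, m, hα, hm, heq, hmD⟩
  have hdvd : α ∣ Nat.find hex := by
    have : α ^ 2 ∣ (Nat.find hex) ^ 2 := ⟨m, heq⟩
    exact (Nat.pow_dvd_pow_iff (by norm_num)).1 this
  obtain ⟨c, hc⟩ := hdvd
  have hm' : m = c ^ 2 := by
    rw [hc, mul_pow] at heq
    exact (Nat.eq_of_mul_eq_mul_left (by positivity) heq).symm
  have hcpos : 0 < c := by
    rcases Nat.eq_zero_or_pos c with h | h
    · rw [h] at hm'; simp at hm'; omega
    · exact h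
  have hclt : c < Nat.find hex := by
    rw [hc]; nlinarith
  exact Nat.find_min hex hclt ⟨(Dvd.intro_left α hc.symm).trans hd1, hm' ▸ hmD⟩

/-- **There are infinitely many `Δ`-primitive squares.** -/
theorem result : {n : ℕ | IsSquare n ∧ DeltaPrimitive n}.Infinite := by
  intro hfin
  classical
  set S := hfin.toFinset with hS
  have hS' : ∀ n, n ∈ S ↔ (IsSquare n ∧ DeltaPrimitive n) := by
    intro n; rw [hS, Set.Finite.mem_toFinset]; rfl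
  have hM : 1 ≤ ∏ n ∈ S, n := by
    refine Nat.succ_le_of_lt (Finset.prod_pos ?_)
    intro n hn
    exact ((hS' n).1 hn).2.1.1
  obtain ⟨k, hkM, hk⟩ := exists_primitive_coprime (∏ n ∈ S, n) hM
  have hmem : k ^ 2 ∈ S := (hS' _).2 ⟨⟨k, by ring⟩, hk⟩
  have hdvd : k ∣ ∏ n ∈ S, n := (Dvd.intro_left k (by ring)).trans (Finset.dvd_prod_of_mem _ hmem)
  have hk1 : k = 1 := by
    have := Nat.Coprime.eq_one_of_dvd hkM hdvd
    exact this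
  rw [hk1] at hk
  exact not_hasDelta_one (by simpa using hk.1)

end Pool.Agent.Results.MP_2b20db_nt.Infinite
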